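import Mathlib
import Pool.Agent.Q29.TE.Stm

/-!
# The classes of minimal spaces and the cyclic subgroups of a quotient
-/

namespace Q227.TE

open Finset Module Pool.Agent.TH170.MF Pool.Agent.TH170.QC Pool.Agent.TH170.QE Pool.Agent.Y1.KN
  Pool.Agent.Y327.KN Pool.Agent.Q29.TD

variable {G X : Type} [Group G] [Fintype G] [MulAction G X] [Fintype X]

/-- The character is the same at elements that differ by an element of the kernel. -/
theorem chi_ker0 {S : Submodule ℚ (X → ℚ)} (hS : Invariant G S) {γ δ : G}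
    (h : γ⁻¹ * δ ∈ ker0 G S) : chi S δ = chi S γ := by
  unfold chi
  congr 1
  refine LinearMap.ext fun u => ?_
  simp only [LinearMap.comp_apply]
  rw [proj_tr hS, proj_tr hS]
  funext x
  have h1 := h (tr γ (proj S u)) (tr_mem hS γ (proj_mem S u)) x
  rw [tr_apply, tr_apply, ← mul_smul, mul_inv_cancel_left] at h1
  exact h1

/-- Elements whose images in the quotient generate the same group. -/
theorem chi_quot {S : Submodule ℚ (X → ℚ)} (hS : Invariant G S) (L : Subgroup G) [L.Normal]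
    (hL : L ≤ ker0 G S) {x y : G}
    (h : Subgroup.zpowers (x : G ⧸ L) = Subgroup.zpowers (y : G ⧸ L)) : chi S x = chi S y := by
  classical
  have hx : (x : G ⧸ L) ∈ Subgroup.zpowers (y : G ⧸ L) := by
    rw [← h]
    exact Subgroup.mem_zpowers _
  obtain ⟨k, hk, hkx⟩ := (isOfFinOrder_of_finite (y : G ⧸ L)).mem_zpowers_iff_mem_range_orderOf.1 hx
    |> Finset.mem_image.1
  change (y : G ⧸ L) ^ k = x at hkx
  have hord : orderOf (x : G ⧸ L) = orderOf (y : G ⧸ L) := by
    rw [← Nat.card_zpowers, ← Nat.card_zpowers, h]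
  have hcop : k.Coprime (orderOf (y : G ⧸ L)) := by
    have h6 := orderOf_pow (x := (y : G ⧸ L)) (n := k)
    rw [hkx, hord] at h6
    have hpos := orderOf_pos (y : G ⧸ L)
    have h7 : orderOf (y : G ⧸ L) / Nat.gcd (orderOf (y : G ⧸ L)) k = orderOf (y : G ⧸ L) :=
      h6.symm
    have h8 := Nat.div_eq_self.1 h7
    rcases h8 with h8 | h8
    · omega
    · rw [Nat.coprime_comm]
      exact h8
  have hdvd : orderOf (y : G ⧸ L) ∣ orderOf y := orderOf_map_dvd (QuotientGroup.mk' L) y
  have hne : NeZero (orderOf y) := ⟨(orderOf_pos y).ne'⟩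
  obtain ⟨u, hu⟩ := ZMod.unitsMap_surjective hdvd (ZMod.unitOfCoprime k hcop)
  obtain ⟨k', hk', hk'c⟩ : ∃ k' : ℕ, k' ≡ k [MOD orderOf (y : G ⧸ L)] ∧ k'.Coprime (orderOf y) := by
    refine ⟨(u : ZMod (orderOf y)).val, ?_, ZMod.val_coe_unit_coprime u⟩
    rw [← ZMod.natCast_eq_natCast_iff]
    have h1 := congrArg (fun z : (ZMod (orderOf (y : G ⧸ L)))ˣ =>
      (z : ZMod (orderOf (y : G ⧸ L)))) hu
    simp only [ZMod.coe_unitOfCoprime] at h1
    rw [← h1, ZMod.unitsMap_val]
    rw [ZMod.natCast_val]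
  have hxy : y ^ k' = y ^ k' := rfl
  have h1 : ((y ^ k' : G) : G ⧸ L) = (x : G ⧸ L) := by
    rw [QuotientGroup.mk_pow, ← hkx]
    exact pow_eq_pow_iff_modEq.2 hk'
  have h2 : (y ^ k')⁻¹ * x ∈ ker0 G S := hL (QuotientGroup.eq.1 h1)
  rw [chi_ker0 hS h2]
  exact chi_pow Pool.Agent.Y210.KN.ratl hS y k' hk'c

theorem t_CLS : Pool.Agent.Q29.TE.S_CLS := by
  classical
  intro G X _ _ _ _ c ι _ S L _ hS hK hL n q hq
  have hval : ∀ (i : ι) (x y : G), q (x : G ⧸ L) = q (y : G ⧸ L) → chi (S i) x = chi (S i) y := by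
    intro i x y h
    obtain ⟨g, hg⟩ := hq _ _ h
    obtain ⟨g, rfl⟩ := QuotientGroup.mk_surjective g
    rw [← chi_conj (hS i).2.1 g x]
    exact chi_quot (hS i).2.1 L (hL i) hg
  have hrep : ∀ m : Fin n, ∃ g : G, ∀ x : G, q (x : G ⧸ L) = m → q (g : G ⧸ L) = m := by
    intro m
    by_cases h : ∃ g : G, q (g : G ⧸ L) = m
    · obtain ⟨g, hg⟩ := h
      exact ⟨g, fun _ _ => hg⟩
    · exact ⟨1, fun x hx => absurd ⟨x, hx⟩ h⟩
  choose rep hrep using hrep
  have hlin : LinearIndependent ℚ (fun (i : ι) (m : Fin n) => chi (S i) (rep m)) := by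
    rw [Fintype.linearIndependent_iff]
    intro l hl i
    have hf0 : ∀ x : G, ∑ j, l j * chi (S j) x = 0 := by
      intro x
      have h5 := congrFun hl (q (x : G ⧸ L))
      rw [Finset.sum_apply] at h5
      have h6 : ∀ j, chi (S j) x = chi (S j) (rep (q (x : G ⧸ L))) := fun j =>
        hval j x _ (hrep (q (x : G ⧸ L)) x rfl).symm
      calc ∑ j, l j * chi (S j) x = ∑ j, l j * chi (S j) (rep (q (x : G ⧸ L))) :=
            sum_congr rfl fun j _ => by rw [h6 j]
        _ = 0 := by simpa using h5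
    have h6 : ∑ γ : G, (∑ j, l j * chi (S j) γ) * chi (S i) γ =
        l i * ∑ γ : G, chi (S i) γ * chi (S i) γ := by
      calc ∑ γ : G, (∑ j, l j * chi (S j) γ) * chi (S i) γ
          = ∑ γ : G, ∑ j, l j * (chi (S j) γ * chi (S i) γ) := by
            refine sum_congr rfl fun γ _ => ?_
            rw [sum_mul]
            exact sum_congr rfl fun j _ => by ring
        _ = ∑ j, l j * ∑ γ : G, chi (S j) γ * chi (S i) γ := by
            rw [sum_comm]
            exact sum_congr rfl fun j _ => (mul_sum _ _ _).symm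
        _ = l i * ∑ γ : G, chi (S i) γ * chi (S i) γ := by
            rw [Finset.sum_eq_single i]
            · intro j _ hj
              rw [chi_orth (hS j) (hS i) (hK j i hj), mul_zero]
            · intro h
              exact absurd (mem_univ _) h
    rw [sum_eq_zero fun γ _ => by rw [hf0 γ, zero_mul]] at h6
    exact (mul_eq_zero.1 h6.symm).resolve_right (chi_sq_pos (hS i)).ne'
  have h := hlin.fintype_card_le_finrank
  rwa [Module.finrank_fintype_fun_eq_card, Fintype.card_fin] at h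

end Q227.TE
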