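import Mathlib
import Pool.Agent.Q29.TE.Stm
import Pool.Agent.Y46.KN1.Desc

/-!
# The fixed part and the endomorphisms for a space that comes from a subfield
-/

set_option linter.unusedSectionVars false

namespace Q227.TE

open Finset Module NumberField Pool.Agent.TH170.MF Pool.Agent.TH170.QC Pool.Agent.TH170.QE
  Pool.Agent.TH170.FW Pool.Agent.H204R3.CM Pool.Agent.Y1.KN Pool.Agent.Y46.KN1

section

variable {E : Type*} [Field E] [NumberField E] (F : IntermediateField ℚ E)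

theorem comp_of_E (h : Gal E) : ∃ δ : Gal F, ∀ χ : E →+* ℂ,
    δ • (χ.comp (algebraMap F E)) = (h • χ).comp (algebraMap F E) := by
  obtain ⟨σ, hσ⟩ := gal_smul E h
  obtain ⟨δ, hδ⟩ := exists_gal_smul F σ
  exact ⟨δ, fun χ => by rw [hδ, hσ]; rfl⟩

theorem comp_of_F (δ : Gal F) : ∃ h : Gal E, ∀ χ : E →+* ℂ,
    δ • (χ.comp (algebraMap F E)) = (h • χ).comp (algebraMap F E) := by
  obtain ⟨σ, hσ⟩ := gal_smul F δ
  obtain ⟨h, hh⟩ := exists_gal_smul E σ
  exact ⟨h, fun χ => by rw [hσ, hh]; rfl⟩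

theorem fixed_le (S : Submodule ℚ ((E →+* ℂ) → ℚ)) (φ : E →+* ℂ) :
    finrank ℚ (Pool.Agent.TH170.QC.fixedPart (Gal F) (φ.comp (algebraMap F E)) (desc F S)) ≤
      finrank ℚ (Pool.Agent.TH170.QC.fixedPart (Gal E) φ S) := by
  have h : (Pool.Agent.TH170.QC.fixedPart (Gal F) (φ.comp (algebraMap F E)) (desc F S)).map
      (pull F) ≤ Pool.Agent.TH170.QC.fixedPart (Gal E) φ S := by
    rintro _ ⟨v, ⟨hv, hfix⟩, rfl⟩
    refine ⟨hv, fun h hh ψ => ?_⟩
    obtain ⟨δ, hδ⟩ := comp_of_E F h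
    rw [pull_apply, pull_apply, ← hδ]
    exact hfix δ (by rw [hδ, hh]) _
  rw [(Submodule.equivMapOfInjective (pull F) (pull_inj F) _).finrank_eq]
  exact Submodule.finrank_mono h

/-- The pull-back as a map to the space. -/
def pullR (S : Submodule ℚ ((E →+* ℂ) → ℚ)) : desc F S →ₗ[ℚ] S :=
  ((pull F).comp (desc F S).subtype).codRestrict S (fun v => v.2)

theorem pullR_apply (S : Submodule ℚ ((E →+* ℂ) → ℚ)) (v : desc F S) (φ : E →+* ℂ) :
    (pullR F S v : (E →+* ℂ) → ℚ) φ = (v : (F →+* ℂ) → ℚ) (φ.comp (algebraMap F E)) := rfl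

theorem edim_le_desc {S : Submodule ℚ ((E →+* ℂ) → ℚ)} (hle : S ≤ resSpace F) :
    edim (Gal E) S ≤ edim (Gal F) (desc F S) := by
  classical
  choose e he using exists_ext F
  let Ψ : (S →ₗ[ℚ] ((E →+* ℂ) → ℚ)) →ₗ[ℚ] (desc F S →ₗ[ℚ] ((F →+* ℂ) → ℚ)) :=
    { toFun := fun A => (LinearMap.funLeft ℚ ℚ e).comp (A.comp (pullR F S))
      map_add' := fun A B => rfl
      map_smul' := fun r A => rfl }
  have hΨ : ∀ (A : S →ₗ[ℚ] ((E →+* ℂ) → ℚ)), (∀ s, A s ∈ S) → ∀ v,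
      pull F (Ψ A v) = A (pullR F S v) := by
    intro A hA v
    funext φ
    change A (pullR F S v) (e (φ.comp (algebraMap F E))) = A (pullR F S v) φ
    refine (hle (hA _)).2 _ _ fun x hx => ?_
    exact RingHom.congr_fun (he (φ.comp (algebraMap F E))) ⟨x, hx⟩
  have hmem : ∀ A ∈ homs (Gal E) S S, Ψ A ∈ homs (Gal F) (desc F S) (desc F S) := by
    rintro A ⟨hA, hAe⟩
    refine ⟨fun v => ?_, fun γ s t hst x => ?_⟩
    · change pull F (Ψ A v) ∈ S
      rw [hΨ A hA]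
      exact hA _
    · obtain ⟨δ, hδ⟩ := comp_of_F F γ
      have h1 := hAe δ (pullR F S s) (pullR F S t) (fun φ => by
        rw [pullR_apply, pullR_apply, hst, hδ]) (e x)
      change A (pullR F S t) (e x) = Ψ A s (γ • x)
      rw [h1, ← hΨ A hA, pull_apply, ← hδ, he]
  let Θ : homs (Gal E) S S →ₗ[ℚ] homs (Gal F) (desc F S) (desc F S) :=
    (Ψ.comp (homs (Gal E) S S).subtype).codRestrict _ (fun A => hmem A A.2)
  have hinj : Function.Injective Θ := by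
    intro A B hAB
    have h1 : Ψ (A : S →ₗ[ℚ] ((E →+* ℂ) → ℚ)) = Ψ (B : S →ₗ[ℚ] ((E →+* ℂ) → ℚ)) :=
      congrArg Subtype.val hAB
    apply Subtype.ext
    refine LinearMap.ext fun s => ?_
    have h2 : (s : (E →+* ℂ) → ℚ) ∈ (desc F S).map (pull F) := by
      rw [map_desc F hle]
      exact s.2
    obtain ⟨v, hv, hvs⟩ := h2
    have h3 : pullR F S ⟨v, hv⟩ = s := Subtype.ext hvs
    have h4 := hΨ A A.2.1 ⟨v, hv⟩
    have h5 := hΨ B B.2.1 ⟨v, hv⟩
    rw [h1, h5, h3] at h4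
    exact h4.symm
  exact LinearMap.finrank_le_finrank_of_injective hinj

end

theorem t_EH : Pool.Agent.Q29.TE.S_EH := by
  intro E _ _ _ F _ S φ hS hle
  exact ⟨fixed_le F S φ, edim_le_desc F hle⟩

end Q227.TE
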