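import Mathlib
import Pool.Agent.Q29.TE.Stm

/-!
# Sums of Gauss functions over integral vectors
-/

namespace Q227.TE

open Finset

theorem sum_Icc_le {b : ℝ} (hb : 0 < b) (B : ℕ) :
    ∑ y ∈ Icc (-(B : ℤ)) B, Real.exp (-(b * (y : ℝ) ^ 2)) ≤
      1 + 2 * ∑ i ∈ range B, Real.exp (-b * ((i + 1 : ℕ) : ℝ) ^ 2) := by
  induction B with
  | zero => simp
  | succ B ih =>
    have h1 : Icc (-((B + 1 : ℕ) : ℤ)) ((B + 1 : ℕ) : ℤ) =
        insert (-((B + 1 : ℕ) : ℤ)) (insert ((B + 1 : ℕ) : ℤ) (Icc (-(B : ℤ)) B)) := by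
      ext y
      simp only [mem_Icc, mem_insert]
      push_cast
      omega
    rw [h1, sum_insert, sum_insert, sum_range_succ]
    · have h2 : Real.exp (-(b * ((-((B + 1 : ℕ) : ℤ) : ℤ) : ℝ) ^ 2)) =
          Real.exp (-b * ((B + 1 : ℕ) : ℝ) ^ 2) := by
        congr 1
        push_cast
        ring
      have h3 : Real.exp (-(b * ((((B + 1 : ℕ) : ℤ) : ℤ) : ℝ) ^ 2)) =
          Real.exp (-b * ((B + 1 : ℕ) : ℝ) ^ 2) := by
        congr 1
        push_cast
        ring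
      rw [h2, h3]
      linarith
    · simp only [mem_Icc, not_and, not_le]
      intro _
      push_cast
      omega
    · simp only [mem_Icc, mem_insert, not_or, not_and, not_le]
      push_cast
      omega

theorem t_GAUSS : Pool.Agent.Q29.TE.S_GAUSS := by
  classical
  intro X _ _ b Z hb
  obtain ⟨B, hB⟩ : ∃ B : ℕ, ∀ z ∈ Z, ∀ x, -(B : ℤ) ≤ z x ∧ z x ≤ B := by
    refine ⟨∑ z ∈ Z, ∑ x, (z x).natAbs, fun z hz x => ?_⟩
    have h1 : (z x).natAbs ≤ ∑ z ∈ Z, ∑ x, (z x).natAbs :=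
      (single_le_sum (f := fun x => (z x).natAbs) (fun _ _ => Nat.zero_le _) (mem_univ x)).trans
        (single_le_sum (f := fun z : X → ℤ => ∑ x, (z x).natAbs) (fun _ _ => Nat.zero_le _) hz)
    omega
  have hsub : Z ⊆ Fintype.piFinset (fun _ : X => Icc (-(B : ℤ)) B) := by
    intro z hz
    rw [Fintype.mem_piFinset]
    intro x
    exact mem_Icc.2 (hB z hz x)
  calc ∑ z ∈ Z, Real.exp (-(b * ∑ x, (z x : ℝ) ^ 2))
      ≤ ∑ z ∈ Fintype.piFinset (fun _ : X => Icc (-(B : ℤ)) B),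
          Real.exp (-(b * ∑ x, (z x : ℝ) ^ 2)) :=
        sum_le_sum_of_subset_of_nonneg hsub fun _ _ _ => (Real.exp_pos _).le
    _ = ∑ z ∈ Fintype.piFinset (fun _ : X => Icc (-(B : ℤ)) B),
          ∏ x, Real.exp (-(b * (z x : ℝ) ^ 2)) := by
        refine sum_congr rfl fun z _ => ?_
        rw [← Real.exp_sum, mul_sum, sum_neg_distrib]
    _ = ∏ _x : X, ∑ y ∈ Icc (-(B : ℤ)) B, Real.exp (-(b * (y : ℝ) ^ 2)) :=
        (prod_univ_sum (fun _ : X => Icc (-(B : ℤ)) B)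
          (fun _ y => Real.exp (-(b * (y : ℝ) ^ 2)))).symm
    _ ≤ ∏ _x : X, (1 + √(Real.pi / b)) := by
        refine prod_le_prod (fun _ _ => sum_nonneg fun _ _ => (Real.exp_pos _).le) fun _ _ => ?_
        refine (sum_Icc_le hb B).trans ?_
        have := Pool.Agent.TH170.MF.sum_gauss_le hb B
        linarith
    _ = _ := by rw [prod_const, card_univ]

end Q227.TE
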