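import Mathlib
import Pool.Agent.Q29.TE.Stm

/-!
# Integral vectors with small entries that are independent stay independent modulo a large prime
-/

namespace Q227.TE

open Finset Module

/-- The Gram matrix of a family of integral vectors. -/
def gramZ {κ X : Type*} [Fintype X] (w : κ → X → ℤ) : Matrix κ κ ℤ :=
  fun i j => ∑ x, w i x * w j x

theorem det_gramZ_ne {κ X : Type*} [Fintype κ] [DecidableEq κ] [Fintype X] (w : κ → X → ℤ)
    (hw : LinearIndependent ℚ (fun i x => (w i x : ℚ))) : (gramZ w).det ≠ 0 := by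
  intro h0
  have h1 : ((gramZ w).map (Int.castRingHom ℚ)).det = 0 := by
    rw [← RingHom.mapMatrix_apply, ← RingHom.map_det, h0, map_zero]
  obtain ⟨c, hc, hc0⟩ := Matrix.exists_vecMul_eq_zero_iff.2 h1
  apply hc
  have h2 : ∀ x, ∑ i, c i * (w i x : ℚ) = 0 := by
    have h3 : ∑ x, (∑ i, c i * (w i x : ℚ)) ^ 2 = 0 := by
      have h4 : ∑ j, Matrix.vecMul c ((gramZ w).map (Int.castRingHom ℚ)) j * c j = 0 := by
        rw [hc0]
        simp
      rw [← h4]
      have h5 : ∀ j, Matrix.vecMul c ((gramZ w).map (Int.castRingHom ℚ)) j =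
          ∑ x, (∑ i, c i * (w i x : ℚ)) * (w j x : ℚ) := by
        intro j
        simp only [Matrix.vecMul, dotProduct, Matrix.map_apply, gramZ, eq_intCast]
        push_cast
        simp only [mul_sum, sum_mul]
        rw [sum_comm]
        exact sum_congr rfl fun x _ => sum_congr rfl fun i _ => by ring
      simp only [h5, sum_mul]
      rw [sum_comm]
      refine sum_congr rfl fun x _ => ?_
      rw [sq, sum_mul_sum]
      rw [sum_comm]
      refine sum_congr rfl fun j _ => ?_
      rw [← sum_mul, sum_mul]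
      refine sum_congr rfl fun i _ => by ring
    intro x
    have h6 := (sum_eq_zero_iff_of_nonneg (fun x _ => sq_nonneg (∑ i, c i * (w i x : ℚ)))).1 h3 x
      (mem_univ x)
    exact pow_eq_zero_iff (two_ne_zero) |>.1 h6
  rw [Fintype.linearIndependent_iff] at hw
  funext i
  refine hw c ?_ i
  funext x
  rw [Finset.sum_apply]
  simpa using h2 x

theorem indep_mod {p : ℕ} [Fact p.Prime] {κ X : Type*} [Fintype κ] [DecidableEq κ] [Fintype X]
    (w : κ → X → ℤ) (h : ¬ (p : ℤ) ∣ (gramZ w).det) :
    LinearIndependent (ZMod p) (fun i x => (w i x : ZMod p)) := by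
  have h1 : ((gramZ w).map (Int.castRingHom (ZMod p))).det ≠ 0 := by
    rw [← RingHom.mapMatrix_apply, ← RingHom.map_det, eq_intCast, Ne,
      ZMod.intCast_zmod_eq_zero_iff_dvd]
    exact h
  rw [Fintype.linearIndependent_iff]
  intro c hc
  by_contra hne
  push Not at hne
  obtain ⟨i, hi⟩ := hne
  apply h1
  refine Matrix.exists_vecMul_eq_zero_iff.1 ⟨c, fun h0 => hi (congrFun h0 i), ?_⟩
  funext j
  simp only [Matrix.vecMul, dotProduct, Matrix.map_apply, gramZ, eq_intCast]
  push_cast
  simp only [mul_sum]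
  rw [sum_comm]
  refine sum_eq_zero fun x _ => ?_
  have h2 := congrFun hc x
  rw [Finset.sum_apply] at h2
  simp only [Pi.smul_apply, smul_eq_mul, Pi.zero_apply] at h2
  calc ∑ i, c i * ((w i x : ZMod p) * (w j x : ZMod p))
      = (∑ i, c i * (w i x : ZMod p)) * (w j x : ZMod p) := by
        rw [sum_mul]
        exact sum_congr rfl fun i _ => by ring
    _ = 0 := by rw [h2, zero_mul]

theorem t_GRAM : Pool.Agent.Q29.TE.S_GRAM := by
  classical
  intro p hp ι X _ _ R v hR hlt
  obtain ⟨κ, a, ha, hspan, hli⟩ := exists_linearIndependent' ℚ (fun i x => (v i x : ℚ))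
  have hfin : Finite κ := Finite.of_injective a ha
  have : Fintype κ := Fintype.ofFinite κ
  have hcard : finrank ℚ (Submodule.span ℚ (Set.range fun i x => (v i x : ℚ))) =
      Fintype.card κ := by
    rw [← hspan]
    exact finrank_span_eq_card hli
  rcases Nat.eq_zero_or_pos (Fintype.card κ) with hκ | hκ
  · rw [hcard, hκ]
    exact Nat.zero_le _
  obtain ⟨k₀⟩ := Fintype.card_pos_iff.1 hκ
  have hle : Fintype.card κ ≤ Fintype.card X := by
    have := hli.fintype_card_le_finrank
    rwa [Module.finrank_fintype_fun_eq_card] at this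
  let w : κ → X → ℤ := fun k => v (a k)
  have hw : LinearIndependent ℚ (fun i x => (w i x : ℚ)) := hli
  have hdet := det_gramZ_ne w hw
  have hpos : 0 < Fintype.card X * R ^ 2 := by
    refine Nat.mul_pos (lt_of_lt_of_le hκ hle) (pow_pos (Nat.pos_of_ne_zero fun hR0 => ?_) 2)
    apply hw.ne_zero k₀
    funext x
    have h3 := hR (a k₀) x
    rw [hR0] at h3
    have h4 : v (a k₀) x = 0 := abs_nonpos_iff.1 (by exact_mod_cast h3)
    change ((v (a k₀) x : ℤ) : ℚ) = 0
    rw [h4]
    simp
  have hbound : |(gramZ w).det| ≤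
      (Fintype.card κ).factorial • ((Fintype.card X * R ^ 2 : ℕ) : ℤ) ^ Fintype.card κ := by
    refine Matrix.det_le (abv := AbsoluteValue.abs) (x := ((Fintype.card X * R ^ 2 : ℕ) : ℤ))
      fun i j => ?_
    change |∑ x, w i x * w j x| ≤ _
    refine (abs_sum_le_sum_abs _ _).trans ?_
    refine (sum_le_card_nsmul _ _ ((R : ℤ) ^ 2) fun x _ => ?_).trans ?_
    · rw [abs_mul, sq]
      exact mul_le_mul (hR _ _) (hR _ _) (abs_nonneg _) (by positivity)
    · rw [card_univ]
      simp
  have hmod : LinearIndependent (ZMod p) (fun i x => (w i x : ZMod p)) := by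
    refine indep_mod w fun hdvd => ?_
    have h1 : (p : ℤ) ≤ |(gramZ w).det| := by
      refine Int.le_of_dvd (abs_pos.2 hdet) ?_
      rwa [dvd_abs]
    have h2 : (Fintype.card κ).factorial * (Fintype.card X * R ^ 2) ^ Fintype.card κ ≤
        (Fintype.card X).factorial * (Fintype.card X * R ^ 2) ^ Fintype.card X :=
      Nat.mul_le_mul (Nat.factorial_le hle) (Nat.pow_le_pow_right hpos hle)
    have h3 : ((Fintype.card κ).factorial • ((Fintype.card X * R ^ 2 : ℕ) : ℤ) ^ Fintype.card κ) <
        (p : ℤ) := by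
      have : (Fintype.card κ).factorial * (Fintype.card X * R ^ 2) ^ Fintype.card κ < p :=
        lt_of_le_of_lt h2 hlt
      rw [nsmul_eq_mul]
      exact_mod_cast this
    linarith
  rw [hcard, ← finrank_span_eq_card hmod]
  refine Submodule.finrank_mono (Submodule.span_mono ?_)
  rintro _ ⟨k, rfl⟩
  exact ⟨a k, rfl⟩

end Q227.TE
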